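import Pool.Agent.Helper91.CK.Lower
import Pool.Agent.Helper91.CK.Ring

/-!
# Judicious bipartitions and sign vectors
-/

set_option autoImplicit false

namespace Pool.Agent.L0h26.CK

open Finset Pool.Agent.Helper91.CK

section
variable {V : Type} [Fintype V]

open Classical in
/-- the number of edges -/
noncomputable def numEdges (G : SimpleGraph V) : ℕ := G.edgeFinset.card

open Classical in
/-- the number of edges with both ends in `S` -/
noncomputable def inside (G : SimpleGraph V) (S : Finset V) : ℕ :=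
  (G.edgeFinset.filter (fun e => ∀ v ∈ e, v ∈ S)).card

open Classical in
/-- the smallest value of `max (e(V₁), e(V₂))` over the bipartitions -/
noncomputable def judicious (G : SimpleGraph V) : ℕ :=
  (univ : Finset (Finset V)).inf' ⟨∅, mem_univ _⟩ fun S => max (inside G S) (inside G Sᶜ)

/-- the graph of the edges inside `S` -/
def ins (G : SimpleGraph V) (S : Finset V) : SimpleGraph V where
  Adj x y := G.Adj x y ∧ x ∈ S ∧ y ∈ S
  symm := ⟨fun _ _ h => ⟨h.1.symm, h.2.2, h.2.1⟩⟩
  loopless := ⟨fun _ h => G.loopless.irrefl _ h.1⟩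

omit [Fintype V] in
lemma ad_cl (G : SimpleGraph V) (i1 i2 : DecidableRel G.Adj) (x y : V) :
    @ad V G i1 x y = @ad V G i2 x y := by
  unfold ad
  by_cases h : G.Adj x y <;> simp [h]

open Classical in
lemma two_inside (G : SimpleGraph V) (S : Finset V) :
    2 * inside G S = ∑ x ∈ S, ∑ y ∈ S, ad G x y := by
  have h1 : inside G S = (ins G S).edgeFinset.card := by
    unfold inside
    congr 1
    ext e
    rw [Finset.mem_filter, SimpleGraph.mem_edgeFinset, SimpleGraph.mem_edgeFinset]
    induction e using Sym2.ind with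
    | _ x y =>
      rw [SimpleGraph.mem_edgeSet, SimpleGraph.mem_edgeSet]
      constructor
      · rintro ⟨h, h2⟩
        exact ⟨h, h2 x (Sym2.mem_mk_left _ _), h2 y (Sym2.mem_mk_right _ _)⟩
      · rintro ⟨h, hx, hy⟩
        refine ⟨h, fun v hv => ?_⟩
        rcases Sym2.mem_iff.1 hv with rfl | rfl
        · exact hx
        · exact hy
  rw [h1, ← (ins G S).sum_degrees_eq_twice_card_edges]
  have h2 : ∀ x, (ins G S).degree x = if x ∈ S then ∑ y ∈ S, ad G x y else 0 := by
    intro x
    rw [← SimpleGraph.card_neighborFinset_eq_degree]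
    have h3 : (ins G S).neighborFinset x = univ.filter (fun y => (ins G S).Adj x y) := by
      ext y
      simp
    rw [h3, Finset.card_filter]
    split_ifs with hx
    · rw [← Finset.sum_subset (Finset.subset_univ S)]
      · refine Finset.sum_congr rfl fun y hy => ?_
        unfold ad
        by_cases h : G.Adj x y
        · rw [if_pos h, if_pos (show (ins G S).Adj x y from ⟨h, hx, hy⟩)]
        · rw [if_neg h, if_neg (fun h' : (ins G S).Adj x y => h h'.1)]
      · intro y _ hy
        rw [if_neg (fun h' : (ins G S).Adj x y => hy h'.2.2)]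
    · refine Finset.sum_eq_zero fun y _ => ?_
      rw [if_neg (fun h' : (ins G S).Adj x y => hx h'.2.1)]
  rw [Finset.sum_congr rfl fun x _ => h2 x, ← Finset.sum_filter]
  refine Finset.sum_congr ?_ fun _ _ => rfl
  ext x
  simp

/-- `8 e(S) = k n + 2 k ∑ σ - F` -/
lemma eight_inside [DecidableEq V] (G : SimpleGraph V) [DecidableRel G.Adj] {k : ℕ}
    (hreg : ∀ v, ∑ y, ad G v y = k) (S : Finset V) :
    8 * (inside G S : ℤ) = (k : ℤ) * Fintype.card V + 2 * k * ∑ v, sg S v -
      F (fun x y => (ad G x y : ℤ)) univ (sg S) := by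
  have h0 : (2 * inside G S : ℤ) = ∑ x ∈ S, ∑ y ∈ S, (ad G x y : ℤ) := by
    have h1 := two_inside G S
    have h2 : ∑ x ∈ S, ∑ y ∈ S, @ad V G (fun a b => Classical.propDecidable _) x y =
        ∑ x ∈ S, ∑ y ∈ S, ad G x y :=
      Finset.sum_congr rfl fun x _ => Finset.sum_congr rfl fun y _ => ad_cl G _ _ x y
    rw [h2] at h1
    exact_mod_cast h1
  have hr : ∀ x, ∑ y, (ad G x y : ℤ) = k := fun x => by exact_mod_cast hreg x
  have hr' : ∀ y, ∑ x, (ad G x y : ℤ) = k := fun y => by
    rw [← hr y]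
    exact Finset.sum_congr rfl fun x _ => by rw [ad_symm]
  -- the indicator
  have hi : ∀ f : V → ℤ, 2 * ∑ x ∈ S, f x = ∑ x, (1 + sg S x) * f x := by
    intro f
    rw [Finset.mul_sum, ← Finset.sum_subset (Finset.subset_univ S)]
    · refine Finset.sum_congr rfl fun x hx => ?_
      unfold sg
      rw [if_pos hx]
      ring
    · intro x _ hx
      unfold sg
      rw [if_neg hx]
      ring
  have h3 : 4 * ∑ x ∈ S, ∑ y ∈ S, (ad G x y : ℤ) =
      ∑ x, ∑ y, (1 + sg S x) * ((1 + sg S y) * (ad G x y : ℤ)) := by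
    have h4 : 4 * ∑ x ∈ S, ∑ y ∈ S, (ad G x y : ℤ) =
        2 * ∑ x ∈ S, 2 * ∑ y ∈ S, (ad G x y : ℤ) := by
      rw [← Finset.mul_sum]
      ring
    rw [h4, hi]
    refine Finset.sum_congr rfl fun x _ => ?_
    rw [hi, Finset.mul_sum]
  have h5 : ∑ x, ∑ y, (1 + sg S x) * ((1 + sg S y) * (ad G x y : ℤ)) =
      (k : ℤ) * Fintype.card V + 2 * k * ∑ v, sg S v -
      F (fun x y => (ad G x y : ℤ)) univ (sg S) := by
    have e1 : ∀ x y : V, (1 + sg S x) * ((1 + sg S y) * (ad G x y : ℤ)) =
        (ad G x y : ℤ) + sg S x * (ad G x y : ℤ) + sg S y * (ad G x y : ℤ) +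
        (ad G x y : ℤ) * sg S x * sg S y := fun x y => by ring
    simp_rw [e1, Finset.sum_add_distrib]
    have e2 : ∑ x : V, ∑ y : V, (ad G x y : ℤ) = k * Fintype.card V := by
      simp_rw [hr]
      simp [mul_comm]
    have e3 : ∑ x : V, ∑ y : V, sg S x * (ad G x y : ℤ) = k * ∑ v, sg S v := by
      simp_rw [← Finset.mul_sum, hr]
      rw [← Finset.sum_mul, mul_comm]
    have e4 : ∑ x : V, ∑ y : V, sg S y * (ad G x y : ℤ) = k * ∑ v, sg S v := by
      rw [Finset.sum_comm]
      simp_rw [← Finset.mul_sum, hr']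
      rw [← Finset.sum_mul, mul_comm]
    rw [e2, e3, e4]
    unfold F
    ring
  linarith

lemma sg_compl [DecidableEq V] (S : Finset V) : ∀ x, sg Sᶜ x = - sg S x := by
  intro x
  unfold sg
  by_cases h : x ∈ S <;> simp [h]

lemma eight_compl [DecidableEq V] (G : SimpleGraph V) [DecidableRel G.Adj] {k : ℕ}
    (hreg : ∀ v, ∑ y, ad G v y = k) (S : Finset V) :
    8 * (inside G Sᶜ : ℤ) = (k : ℤ) * Fintype.card V - 2 * k * ∑ v, sg S v -
      F (fun x y => (ad G x y : ℤ)) univ (sg S) := by
  rw [eight_inside G hreg Sᶜ, funext (sg_compl S), F_neg, Finset.sum_neg_distrib]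
  ring

lemma Sg_eq_sg [DecidableEq V] {σ : V → ℤ} (h : Sg σ) :
    sg (univ.filter (fun v => σ v = 1)) = σ := by
  funext v
  unfold sg
  rcases h v with h1 | h1
  · rw [if_pos (by simp [h1]), h1]
  · rw [if_neg (by simp [h1]), h1]

/-- the upper bound by a sign vector -/
lemma judicious_le [DecidableEq V] (G : SimpleGraph V) [DecidableRel G.Adj] {k : ℕ}
    (hreg : ∀ v, ∑ y, ad G v y = k) {σ : V → ℤ} (hσ : Sg σ) (D : ℕ) (hD : ∑ v, σ v = D) :
    8 * (judicious G : ℤ) ≤ (k : ℤ) * Fintype.card V + 2 * k * D -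
      F (fun x y => (ad G x y : ℤ)) univ σ := by
  set S : Finset V := univ.filter (fun v => σ v = 1) with hS
  have hs : sg S = σ := Sg_eq_sg hσ
  have h1 := eight_inside G hreg S
  have h2 := eight_compl G hreg S
  rw [hs, hD] at h1 h2
  have h3 : judicious G ≤ max (inside G S) (inside G Sᶜ) := by
    unfold judicious
    refine (Finset.inf'_le _ (mem_univ S)).trans (le_of_eq ?_)
    congr
    exact Subsingleton.elim _ _
  have h4 : (0 : ℤ) ≤ 2 * k * D := by positivity
  have h5 : (judicious G : ℤ) ≤ max (inside G S : ℤ) (inside G Sᶜ : ℤ) := by exact_mod_cast h3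
  rcases max_choice (inside G S : ℤ) (inside G Sᶜ : ℤ) with h6 | h6 <;> rw [h6] at h5 <;> linarith

/-- the lower bound for all sign vectors -/
lemma le_judicious [DecidableEq V] (G : SimpleGraph V) [DecidableRel G.Adj] {k : ℕ}
    (hreg : ∀ v, ∑ y, ad G v y = k) (c : ℤ)
    (h : ∀ σ : V → ℤ, Sg σ → c ≤ (k : ℤ) * Fintype.card V + 2 * k * |∑ v, σ v| -
      F (fun x y => (ad G x y : ℤ)) univ σ) : c ≤ 8 * (judicious G : ℤ) := by
  obtain ⟨S, _, hS⟩ := Finset.exists_mem_eq_inf' (s := (univ : Finset (Finset V)))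
    ⟨∅, mem_univ _⟩ (fun S => max (inside G S) (inside G (@compl _ (@Finset.booleanAlgebra V _
      (fun a b => Classical.propDecidable _)).toCompl S)))
  have h1 := eight_inside G hreg S
  have h2 := eight_compl G hreg S
  have h3 := h (sg S) (sg_Sg S)
  have h4 : (judicious G : ℤ) = max (inside G S : ℤ) (inside G Sᶜ : ℤ) := by
    have : judicious G = max (inside G S) (inside G Sᶜ) := by
      unfold judicious
      refine Eq.trans ?_ (hS.trans ?_)
      · rfl
      · congr
        exact Subsingleton.elim _ _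
    exact_mod_cast this
  rw [h4]
  rcases abs_cases (∑ v, sg S v) with ⟨h5, _⟩ | ⟨h5, _⟩
  · rw [h5] at h3
    have := le_max_left (inside G S : ℤ) (inside G Sᶜ : ℤ)
    linarith
  · rw [h5] at h3
    have := le_max_right (inside G S : ℤ) (inside G Sᶜ : ℤ)
    linarith

end

end Pool.Agent.L0h26.CK
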