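import Pool.Agent.L0h26.CK.Stm2
import Pool.Agent.L0h26.CK.Conv

/-!
# The constants `d_k`
-/

set_option autoImplicit false

namespace Pool.Agent.L0h26.CK

open Finset Pool.Agent.Helper91.CK

open Classical in
/-- `k`-regular, no `K_{k+1}`, at least one edge -/
def InClass (k : ℕ) {V : Type} [Fintype V] (G : SimpleGraph V) : Prop :=
  G.IsRegularOfDegree k ∧ G.CliqueFree (k + 1) ∧ 0 < numEdges G

/-- all values `g(G) / e(G)` over the class -/
def ratios (k : ℕ) : Set ℝ :=
  {r | ∃ (V : Type) (_ : Fintype V) (G : SimpleGraph V),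
    InClass k G ∧ r = (judicious G : ℝ) / (numEdges G : ℝ)}

/-- the constant `d_k` -/
noncomputable def d (k : ℕ) : ℝ := sSup (ratios k)

/-- the value -/
noncomputable def val (k : ℕ) : ℝ :=
  if Even k then (3 * (k : ℝ) - 4) * (k + 2) / (12 * k * (k + 1))
  else 1 / 4 - (3 * (k : ℝ) + 11) / (12 * k * (k + 1))

lemma reg_ad {k : ℕ} {V : Type} [Fintype V] [DecidableEq V] (G : SimpleGraph V)
    [DecidableRel G.Adj] (h : InClass k G) (v : V) : ∑ y, ad G v y = k := by
  have h1 := h.1 v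
  rw [← h1, ← SimpleGraph.card_neighborFinset_eq_degree]
  unfold ad
  rw [← Finset.card_filter]
  congr 1
  ext y
  simp

lemma edges_ad {k : ℕ} {V : Type} [Fintype V] (G : SimpleGraph V)
    (h : InClass k G) : 2 * numEdges G = Fintype.card V * k := by
  classical
  unfold numEdges
  rw [← G.sum_degrees_eq_twice_card_edges]
  have : ∀ v, G.degree v = k := by
    intro v
    have := h.1 v
    convert this
  rw [Finset.sum_congr rfl (fun v _ => this v)]
  simp

open Classical in
lemma pos_of_reg {V : Type} [Fintype V] {k : ℕ} (hk : 0 < k) [Nonempty V] (G : SimpleGraph V)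
    (h : G.IsRegularOfDegree k) : 0 < numEdges G := by
  unfold numEdges
  have h1 := G.sum_degrees_eq_twice_card_edges
  rw [Finset.sum_congr rfl (fun v _ => h v)] at h1
  rw [Finset.sum_const, Finset.card_univ, smul_eq_mul] at h1
  have h2 : 0 < Fintype.card V * k := Nat.mul_pos Fintype.card_pos hk
  omega

lemma ring_class {k : ℕ} (hk : 3 ≤ k) : InClass k (ring k) := by
  unfold InClass
  have hdeg : ∀ v, @SimpleGraph.degree _ (ring k) v (@SimpleGraph.neighborSetFintype _ (ring k) _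
      (fun a b => Classical.propDecidable _) v) = k := by
    intro v
    have := ring_deg hk v
    unfold ad at this
    rw [← Finset.card_filter] at this
    rw [← SimpleGraph.card_neighborFinset_eq_degree]
    refine Eq.trans ?_ this
    congr 1
    ext y
    simp
  exact ⟨hdeg, ring_cliqueFree hk, pos_of_reg (by omega) (ring k) hdeg⟩

/-- the lower bound for the ring -/
lemma ring_lower {k : ℕ} (hk : 3 ≤ k) :
    val k ≤ (judicious (ring k) : ℝ) / (numEdges (ring k) : ℝ) := by
  have hcls := ring_class hk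
  have hc : Fintype.card (Fin 3 × Fin (k + 1)) = 3 * (k + 1) := by simp
  have h1 := edges_ad (ring k) hcls
  rw [hc] at h1
  have hkr : (3 : ℝ) ≤ k := by exact_mod_cast hk
  have h5 : 0 < numEdges (ring k) := hcls.2.2
  have hm : (0 : ℝ) < numEdges (ring k) := by exact_mod_cast h5
  have hmr : 2 * (numEdges (ring k) : ℝ) = 3 * (k + 1) * k := by exact_mod_cast h1
  rw [le_div_iff₀ hm]
  unfold val
  split_ifs with he
  · obtain ⟨e, he⟩ := he
    have h2 : (3 * (k : ℤ) - 4) * (k + 2) ≤ 8 * (judicious (ring k) : ℤ) := by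
      refine le_judicious (ring k) (ring_deg hk) _ fun σ hσ => ?_
      have h3 := ring_upper hk σ hσ
      have h4 : (((k + 1) / 2 : ℕ) : ℤ) = e := by
        have : (k + 1) / 2 = e := by omega
        exact_mod_cast this
      have hke : (k : ℤ) = 2 * e := by
        have : k = 2 * e := by omega
        exact_mod_cast this
      rw [h4] at h3
      rw [hc]
      have h6 : (1 : ℤ) ≤ |∑ v, σ v| := by
        refine Int.one_le_abs fun h0 => ?_
        obtain ⟨c, hc'⟩ := parity_sum univ σ hσ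
        rw [h0, card_univ, hc] at hc'
        push_cast at hc'
        rw [hke] at hc'
        omega
      have h7 : 2 * (k : ℤ) * 1 ≤ 2 * k * |∑ v, σ v| :=
        mul_le_mul_of_nonneg_left h6 (by positivity)
      push_cast
      have h8 : (6 : ℤ) * e = 3 * k := by rw [hke]; ring
      rw [h8] at h3
      nlinarith
    have h2r : (3 * (k : ℝ) - 4) * (k + 2) ≤ 8 * (judicious (ring k) : ℝ) := by exact_mod_cast h2
    have h3 : (3 * (k : ℝ) - 4) * (k + 2) / (12 * k * (k + 1)) * (numEdges (ring k) : ℝ) =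
        (3 * (k : ℝ) - 4) * (k + 2) / 8 := by
      have hm2 : (numEdges (ring k) : ℝ) = 3 * (k + 1) * k / 2 := by linarith
      rw [hm2]
      field_simp
      ring
    rw [h3]
    linarith
  · rw [Nat.not_even_iff_odd] at he
    obtain ⟨e, he⟩ := he
    have h2 : 3 * (k : ℤ) * (k + 1) - (3 * k + 11) ≤ 8 * (judicious (ring k) : ℤ) := by
      refine le_judicious (ring k) (ring_deg hk) _ fun σ hσ => ?_
      have h3 := ring_upper hk σ hσ
      have h4 : (((k + 1) / 2 : ℕ) : ℤ) = e + 1 := by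
        have : (k + 1) / 2 = e + 1 := by omega
        rw [this]
        push_cast
        ring
      have hke : (k : ℤ) = 2 * e + 1 := by exact_mod_cast he
      rw [h4] at h3
      rw [hc]
      have h7 : 0 ≤ 2 * (k : ℤ) * |∑ v, σ v| := by positivity
      push_cast
      have h8 : (6 : ℤ) * (e + 1) = 3 * k + 3 := by rw [hke]; ring
      rw [h8] at h3
      nlinarith
    have h2r : 3 * (k : ℝ) * (k + 1) - (3 * k + 11) ≤ 8 * (judicious (ring k) : ℝ) := by
      exact_mod_cast h2
    have h3 : (1 / 4 - (3 * (k : ℝ) + 11) / (12 * k * (k + 1))) * (numEdges (ring k) : ℝ) =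
        (3 * (k : ℝ) * (k + 1) - (3 * k + 11)) / 8 := by
      have hm2 : (numEdges (ring k) : ℝ) = 3 * (k + 1) * k / 2 := by linarith
      rw [hm2]
      field_simp
      ring
    rw [h3]
    linarith

/-- the upper bound for odd `k` -/
lemma upper_odd (hL : S_LOW) (hR : S_RBC) {k : ℕ} (hk : 1000 ≤ k) (ho : Odd k) {r : ℝ}
    (hr : r ∈ ratios k) : r ≤ val k := by
  classical
  obtain ⟨V, hV, G, hG, rfl⟩ := hr
  obtain ⟨σ, hσ, h0, hF⟩ := hL hR V G k hk ho (reg_ad G hG) hG.2.1
  have h1 := judicious_le G (reg_ad G hG) hσ 0 (by rw [h0]; rfl)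
  have h4 := edges_ad G hG
  have h5 : 0 < numEdges G := hG.2.2
  set J : ℕ := judicious G
  set m : ℕ := numEdges G
  set n : ℕ := Fintype.card V
  set Fσ : ℤ := F (fun x y => (ad G x y : ℤ)) univ σ
  have hm : (0 : ℝ) < m := by exact_mod_cast h5
  have hkr : (1000 : ℝ) ≤ k := by exact_mod_cast hk
  have h6 : 3 * ((k : ℤ) + 1) * (8 * (J : ℤ)) ≤ 3 * ((k : ℤ) + 1) * (k * n) -
      (3 * (k : ℤ) + 11) * n := by
    have := mul_le_mul_of_nonneg_left h1 (show (0 : ℤ) ≤ 3 * ((k : ℤ) + 1) by positivity)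
    push_cast at this
    linarith
  have h6r : 3 * ((k : ℝ) + 1) * (8 * J) ≤ 3 * ((k : ℝ) + 1) * (k * n) -
      (3 * (k : ℝ) + 11) * n := by exact_mod_cast h6
  have h4r : 2 * (m : ℝ) = n * k := by exact_mod_cast h4
  rw [div_le_iff₀ hm]
  unfold val
  rw [if_neg (by rwa [Nat.not_even_iff_odd])]
  have h7 : (1 / 4 - (3 * (k : ℝ) + 11) / (12 * k * (k + 1))) * (m : ℝ) =
      (3 * ((k : ℝ) + 1) * (k * n) - (3 * (k : ℝ) + 11) * n) / (24 * (k + 1)) := by
    have hm2 : (m : ℝ) = n * k / 2 := by linarith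
    rw [hm2]
    field_simp
    ring
  rw [h7, le_div_iff₀ (by positivity)]
  linarith

/-- the upper bound for even `k` -/
lemma upper_even (hE : S_EV) (hE2 : S_EV2) (hB : S_BAL) (hP : S_RP2) {k : ℕ} (hk : 1000 ≤ k)
    (he : Even k) {V : Type} [Fintype V] (G : SimpleGraph V) (hG : InClass k G)
    (hn : Even (Fintype.card V) ∨ 3 * (k + 1) ≤ Fintype.card V) :
    (judicious G : ℝ) / (numEdges G : ℝ) ≤ val k := by
  classical
  have hEV := hE hB V G k hk he (reg_ad G hG) hG.2.1
  have h4 := edges_ad G hG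
  have h5 : 0 < numEdges G := hG.2.2
  have hm : (0 : ℝ) < numEdges G := by exact_mod_cast h5
  have hkr : (1000 : ℝ) ≤ k := by exact_mod_cast hk
  have h4r : 2 * (numEdges G : ℝ) = Fintype.card V * k := by exact_mod_cast h4
  have key : 24 * ((k : ℤ) + 1) * (judicious G : ℤ) ≤ (3 * ((k : ℤ) + 1) * k - (k + 8)) *
      Fintype.card V := by
    rcases Nat.even_or_odd (Fintype.card V) with h | h
    · obtain ⟨σ, hσ, h0, hF⟩ := hEV.1 h
      have h1 := judicious_le G (reg_ad G hG) hσ 0 (by rw [h0]; rfl)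
      have := mul_le_mul_of_nonneg_left h1 (show (0 : ℤ) ≤ 3 * ((k : ℤ) + 1) by positivity)
      push_cast at this
      linarith
    · have hn2 : 3 * (k + 1) ≤ Fintype.card V := by
        rcases hn with h2 | h2
        · exact absurd h2 (by rwa [Nat.not_even_iff_odd])
        · exact h2
      obtain ⟨σ, hσ, h0, hF⟩ : ∃ σ : V → ℤ, Sg σ ∧ ∑ v, σ v = 1 ∧
          6 * (k : ℤ) * ((k : ℤ) + 1) + ((k : ℤ) + 8) * (Fintype.card V : ℤ) ≤
            3 * ((k : ℤ) + 1) * F (fun x y => (ad G x y : ℤ)) univ σ := by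
        rcases Nat.lt_or_ge (Fintype.card V) (3 * k + 8) with h2 | h2
        · exact hE2 hB hP V G k hk he (reg_ad G hG) hG.2.1 h (by omega) (by omega)
        · refine hEV.2 h ?_
          obtain ⟨e, he⟩ := he
          obtain ⟨f, hf⟩ := h
          omega
      have h1 := judicious_le G (reg_ad G hG) hσ 1 (by rw [h0]; rfl)
      have := mul_le_mul_of_nonneg_left h1 (show (0 : ℤ) ≤ 3 * ((k : ℤ) + 1) by positivity)
      push_cast at this
      linarith
  have keyr : 24 * ((k : ℝ) + 1) * (judicious G : ℝ) ≤ (3 * ((k : ℝ) + 1) * k - (k + 8)) *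
      Fintype.card V := by exact_mod_cast key
  rw [div_le_iff₀ hm]
  unfold val
  rw [if_pos he]
  have h7 : (3 * (k : ℝ) - 4) * (k + 2) / (12 * k * (k + 1)) * (numEdges G : ℝ) =
      (3 * ((k : ℝ) + 1) * k - (k + 8)) * Fintype.card V / (24 * (k + 1)) := by
    have hm2 : (numEdges G : ℝ) = Fintype.card V * k / 2 := by linarith
    rw [hm2]
    field_simp
    ring
  rw [h7, le_div_iff₀ (by positivity)]
  linarith

lemma ratio_le_one {k : ℕ} {r : ℝ} (hr : r ∈ ratios k) : r ≤ 1 := by
  classical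
  obtain ⟨V, hV, G, hG, rfl⟩ := hr
  have h5 : 0 < numEdges G := hG.2.2
  have hm : (0 : ℝ) < numEdges G := by exact_mod_cast h5
  rw [div_le_one hm]
  have h1 : judicious G ≤ numEdges G := by
    unfold judicious
    refine (Finset.inf'_le _ (mem_univ ∅)).trans (max_le ?_ ?_) <;>
      · unfold inside numEdges
        exact Finset.card_filter_le _ _
  exact_mod_cast h1

lemma bdd (k : ℕ) : BddAbove (ratios k) := ⟨1, fun _ hr => ratio_le_one hr⟩

lemma ring_mem {k : ℕ} (hk : 3 ≤ k) :
    (judicious (ring k) : ℝ) / (numEdges (ring k) : ℝ) ∈ ratios k :=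
  ⟨_, _, ring k, ring_class hk, rfl⟩

/-- the values `g(G) / e(G)` over the graphs of the class whose order is even or at least
`3 (k + 1)` -/
def ratiosEL (k : ℕ) : Set ℝ :=
  {r | ∃ (V : Type) (_ : Fintype V) (G : SimpleGraph V), InClass k G ∧
    (Even (Fintype.card V) ∨ 3 * (k + 1) ≤ Fintype.card V) ∧
    r = (judicious G : ℝ) / (numEdges G : ℝ)}

theorem fin_all (hB : S_BAL) (hP : S_RP2) (hR : S_RBC) (hL : S_LOW) (hE : S_EV) (hE2 : S_EV2) :
    (∀ k : ℕ, 3 ≤ k → val k ≤ d k) ∧
    (∀ k : ℕ, 1000 ≤ k → Odd k → IsGreatest (ratios k) (val k) ∧ d k = val k) ∧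
    (∀ k : ℕ, 1000 ≤ k → Even k → IsGreatest (ratiosEL k) (val k)) := by
  refine ⟨fun k hk => (ring_lower hk).trans (le_csSup (bdd k) (ring_mem hk)),
    fun k hk ho => ?_, fun k hk he => ?_⟩
  · have h3 : 3 ≤ k := by omega
    have h1 : IsGreatest (ratios k) (val k) := by
      refine ⟨?_, fun r hr => upper_odd hL hR hk ho hr⟩
      have h2 : (judicious (ring k) : ℝ) / (numEdges (ring k) : ℝ) = val k :=
        le_antisymm (upper_odd hL hR hk ho (ring_mem h3)) (ring_lower h3)
      rw [← h2]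
      exact ring_mem h3
    exact ⟨h1, h1.csSup_eq⟩
  · have h3 : 3 ≤ k := by omega
    have hc : 3 * (k + 1) ≤ Fintype.card (Fin 3 × Fin (k + 1)) := by simp
    refine ⟨?_, ?_⟩
    · have h2 : (judicious (ring k) : ℝ) / (numEdges (ring k) : ℝ) = val k :=
        le_antisymm (upper_even hE hE2 hB hP hk he (ring k) (ring_class h3) (Or.inr hc))
          (ring_lower h3)
      rw [← h2]
      exact ⟨_, _, ring k, ring_class h3, Or.inr hc, rfl⟩
    · rintro r ⟨V, hV, G, hG, hn, rfl⟩
      exact upper_even hE hE2 hB hP hk he G hG hn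

/-- for odd `k` every graph of the class has even order -/
lemma ratiosEL_odd {k : ℕ} (ho : Odd k) : ratiosEL k = ratios k := by
  ext r
  constructor
  · rintro ⟨V, hV, G, hG, _, rfl⟩
    exact ⟨V, hV, G, hG, rfl⟩
  · rintro ⟨V, hV, G, hG, rfl⟩
    refine ⟨V, hV, G, hG, Or.inl ?_, rfl⟩
    have h1 := edges_ad G hG
    have h2 : Even (Fintype.card V * k) := ⟨numEdges G, by omega⟩
    rcases Nat.even_mul.1 h2 with h3 | h3
    · exact h3
    · exact absurd h3 (by rwa [Nat.not_even_iff_odd])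

theorem fin_all2 (hB : S_BAL) (hP : S_RP2) (hR : S_RBC) (hL : S_LOW) (hE : S_EV) (hE2 : S_EV2) :
    (∀ k : ℕ, 3 ≤ k → val k ≤ d k) ∧
    (∀ k : ℕ, 1000 ≤ k → IsGreatest (ratiosEL k) (val k) ∧ (Odd k → d k = val k)) := by
  obtain ⟨h1, h2, h3⟩ := fin_all hB hP hR hL hE hE2
  refine ⟨h1, fun k hk => ⟨?_, fun ho => (h2 k hk ho).2⟩⟩
  rcases Nat.even_or_odd k with he | ho
  · exact h3 k hk he
  · rw [ratiosEL_odd ho]
    exact (h2 k hk ho).1

end Pool.Agent.L0h26.CK
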