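import Pool.Agent.Helper91.CK.Lower

/-!
# Judicious bipartitions of `K_{k+1}`-free regular graphs: statements

Notation of the start files `Pool/Agent/Helper91/CK`: `Sg σ`: all values `± 1`;
`F W A σ = - ∑_{x, y ∈ A} W x y σ x σ y`; `RH k H a h`, `Wt H h`: the weights `adj - h` on the
rest of the graph.
-/

set_option autoImplicit false

namespace Pool.Agent.L0h26.CK

open Finset Pool.Agent.Helper91.CK

/-- **BAL** (removing the imbalance).  Let `r = card V`, `R = r + d`, `X = 2 j` (the signs `σ`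
have sum `d + X`), `P = ∑ σ_y ρ(y)`, `ρ(y) = ∑_x W y x`, `ρ = ∑ ρ(y)`.

Proof: induction on `j`; `j = 0` is trivial.  Let `j > 0`, `A = {x | σ x = 1}`, so
`card A = (R + X) / 2`.  For `x ∈ A` flip `x`: `F₁ = F + 4 g(x)`, `g(x) = ∑_y W x y σ y`,
`P₁ = P - 2 ρ(x)`.  One has `∑_{x ∈ A} g(x) = (P - F) / 2` and `∑_{x ∈ A} ρ(x) = (P + ρ) / 2`
(write the indicator of `A` as `(1 + σ) / 2`).  With
`Ψ(X, F, P) = R (R - 2) F + X (2 R P - (X - 2) ρ)` and `s = R + X` one gets the identity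
`2 ∑_{x ∈ A} Ψ(X - 2, F₁, P₁) = (s - 4) Ψ(X, F, P)`, so there is `x ∈ A` with
`s Ψ(X - 2, F₁, P₁) ≥ (s - 4) Ψ(X, F, P)`; by induction
`(s - 2) (s - 4) F' ≥ Ψ(X - 2, F₁, P₁)`; multiply by `s`, cancel `s - 4 > 0`. -/
def S_BAL : Prop := ∀ (V : Type) [Fintype V] [DecidableEq V] (W : V → V → ℤ),
  (∀ x y, W x y = W y x) → (∀ x, W x x = 0) → 3 ≤ Fintype.card V →
  ∀ (d j : ℕ) (σ : V → ℤ), Sg σ → ∑ v, σ v = (d : ℤ) + 2 * j →
  ∃ σ' : V → ℤ, Sg σ' ∧ ∑ v, σ' v = d ∧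
    ((Fintype.card V : ℤ) + d) * ((Fintype.card V : ℤ) + d - 2) * F W univ σ +
      2 * (j : ℤ) * (2 * ((Fintype.card V : ℤ) + d) * (∑ y, σ y * ∑ x, W y x) -
        (2 * (j : ℤ) - 2) * ∑ y, ∑ x, W y x) ≤
    ((Fintype.card V : ℤ) + d + 2 * j) * ((Fintype.card V : ℤ) + d + 2 * j - 2) * F W univ σ'

/-- **RP2** (the start theorem `rpart` with a better constant: copy `Helper91/CK/RPart.lean` and
change the numbers).  With `n = card V`, `A = ∑ a`, `q`, `t`, `B1`, `B2`, `G` as there: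
strategy one gives `F ≥ n + q - t`; strategy two gives `F ≥ n - 3 q - t + 32 |G|`, and now use
`44 |B1| ≤ A`, `16 |B2| ≤ q`, `t ≤ |B1| + |B2| + |G|`, so `11 F ≥ 11 n - 55 q + 341 t - 8 A`;
`n ≤ 3 q + (k + 1) t`.  If the claim fails for both, then
`(30 (k+1) - 375) q < (k+1) (155 t - 4 A)` and
`(k+1) (805 t - 150 q - (196 / 11) A) < 375 q`, which is impossible for `k ≥ 1000`
(first `q ≤ (155 t - 4 A) / 29.625`, then `805 t - 17.8181 A < 150.375 q < 786.8 t - 20.3 A`). -/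
def S_RP2 : Prop := ∀ (V : Type) [Fintype V] [DecidableEq V] (k : ℕ) (H : SimpleGraph V)
  [DecidableRel H.Adj] (a : V → ℕ) (h : V → V → ℕ), 1000 ≤ k → RH k H a h →
  ∃ σ : V → ℤ, Sg σ ∧ (30 * ((k : ℤ) + 1) + 125) * (Fintype.card V : ℤ) ≤
    30 * ((k : ℤ) + 1) * F (Wt H h) univ σ + 4 * ((k : ℤ) + 1) * ∑ x, (a x : ℤ)

/-- the balanced theorem for the rest -/
def S_RBC : Prop := ∀ (V : Type) [Fintype V] [DecidableEq V] (k : ℕ)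
  (H : SimpleGraph V) [DecidableRel H.Adj] (a : V → ℕ) (h : V → V → ℕ), 1000 ≤ k → RH k H a h →
  Even (Fintype.card V) → 6 ≤ Fintype.card V →
  ∃ σ : V → ℤ, Sg σ ∧ ∑ v, σ v = 0 ∧ (3 * ((k : ℤ) + 1) + 8) * (Fintype.card V : ℤ) ≤
    3 * ((k : ℤ) + 1) * F (Wt H h) univ σ + ((k : ℤ) + 1) * ∑ x, (a x : ℤ)

/-- **RB** (the rest, balanced).  Let `r = card V ≥ 6` be even, `A = ∑ a`, `W = Wt H h`,
`ρ(y) = ∑_x W y x = k - d(y)`, `a(y) ≤ d(y) ≤ 2 a(y)` (`RH.hdeg`, `RH.hsum`), `Δ = ∑ d ≤ 2 A`,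
`A ≤ k r`.
Case `A > 4 r`: BAL for `σ = 1` (`d = 0`, `2 j = r`): `F = - ρ`, `P = ρ`, so `(r - 1) F' ≥ ρ =
k r - Δ ≥ k r - 2 A`, and `k r - 2 A ≥ (r - 1) (r + 8 r / (3 (k+1)) - A / 3)` (for `r ≥ 7` use
`A ≥ 4 r`, for `r = 6` use `A ≤ k r`).
Case `A ≤ 4 r`: take `σ` from RP2, after a global change of sign `∑ σ = 2 j ≥ 0` (even as `r` is
even); if `j = 0` done; else put `D = 2 j`, `s = r + D`, `z = F + Δ`; `P = k D - ∑ σ d ≥ k D - Δ`,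
so BAL gives `s (s - 2) (F' + Δ) ≥ r (r - 2) z + k r D (D + 2)` (use `D ≥ 2`).
For every `0 ≤ z₀ ≤ z` one has `k r (r (r - 2) z₀ + k r D (D + 2)) ≥ s (s - 2) (k r z₀ - z₀ ^ 2)`:
`s (s-2) z₀² - X D (2 r + D - 2) z₀ + X² D (D + 2) ≥ 0` with `X = k r` (times `4 s (s - 2)` it is
`(2 s (s-2) z₀ - X D (2 r + D - 2))² + X² D (8 r² + r (4 D² + 16 D - 16) + D (D-2) (3 D + 10))`).
So `F' ≥ z₀ - Δ - z₀² / (k r)`.  With `z₀ = r + 25 r / (6 (k+1)) - 2 A / 15 + Δ ≤ z` (RP2) it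
remains that `z₀² ≤ k r (3 r / (2 (k+1)) + A / 5)`, and
`z₀ ≤ r + 25 r / (6 (k+1)) + 28 A / 15`, `A ≤ 4 r`, `k ≥ 1000`. -/
def S_RB : Prop := S_BAL → S_RP2 → S_RBC

/-- **LOW** (bisections, odd `k`; copy and generalise `Helper91/CK/Lower.lean`, theorem `lower`).
Blocks `B ∈ C` (`exists_family`), rest `R` (`RH_of`), `r = card R` is even (`n` is even because
`k n` is even, `k + 1` is even).  Signs: `σR` on `R`, `ε B` on `X B`, `- ε B` on `B \ X B`, where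
`tch G B ⊆ X B ⊆ B`, now `card (X B) = (k+1)/2 + j B`, `j B ≥ 0`: `block_sum` becomes
`∑_{x, y ∈ B} ad σ σ = (2 j B)² - (k + 1) - e B`, and `∑ σ = ∑_R σR + ∑_B 2 ε B j B`; `tpart` gives
`ε` for any `σR`.
* `r = 0`: any `σR`, `j = 0`; `r ≥ 6`: `σR` from `S_RBC`, `j = 0`: the computation of `lower`.
* `r = 2` or `r = 4`: `σR = 1` everywhere.  Every `x ∈ R` has `a x ≥ k - r + 1` (`RH.hdeg`), so
`A > 0`; some block `B₀` has `ε B₀ = -1` (if all `ε = 1`, `tpart` reads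
`8 T - 3 E + A + 3 ∑ h ≤ 3 (- ∑ wT - 2 A)` with `E = ∑ wT + A`, so `4 A ≤ 0`).  Take
`j B₀ = r / 2`, `j = 0` elsewhere.  Then `∑ σ = 0` and
`F = F(Wt, σR) + ... ≥ T (k + 1 + 8/3) + A / 3 + F(Wt, 1) - r²`, `F(Wt, 1) = - ρ ≥ A - k r`,
`A ≥ r (k - r + 1)`. -/
def S_LOW : Prop := S_RBC → ∀ (V : Type) [Fintype V] [DecidableEq V] (G : SimpleGraph V)
  [DecidableRel G.Adj] (k : ℕ), 1000 ≤ k → Odd k → (∀ v, ∑ y, ad G v y = k) →
  G.CliqueFree (k + 1) →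
  ∃ σ : V → ℤ, Sg σ ∧ ∑ v, σ v = 0 ∧ (3 * (k : ℤ) + 11) * (Fintype.card V : ℤ) ≤
    3 * ((k : ℤ) + 1) * F (fun x y => (ad G x y : ℤ)) univ σ

/-- **EV** (even `k`).  `lower` gives `σ` with `F ≥ F₀ = n (3 k + 8) / (3 (k + 1))`; after a change
of sign `∑ σ = d + 2 j ≥ 0` with `d = 0` (`n` even) or `d = 1` (`n` odd).  BAL with `P = k ∑ σ`,
`ρ = k n`: with `R = n + d`, `X = 2 j`, `s = R + X`:
`s (s - 2) F' ≥ R (R - 2) F + k R X (X + 2)`, hence (as in RB, `z₀ = F₀`) `F' ≥ F₀ - F₀² / (k R)`,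
and this is at least `n (k + 8) / (3 (k+1))`, and for `n ≥ 3 k + 9` at least
`2 k + n (k + 8) / (3 (k+1))`.  (`n ≥ k + 1 ≥ 3` if `V` is nonempty; `V` empty is trivial.) -/
def S_EV : Prop := S_BAL → ∀ (V : Type) [Fintype V] [DecidableEq V] (G : SimpleGraph V)
  [DecidableRel G.Adj] (k : ℕ), 1000 ≤ k → Even k → (∀ v, ∑ y, ad G v y = k) →
  G.CliqueFree (k + 1) →
  (Even (Fintype.card V) → ∃ σ : V → ℤ, Sg σ ∧ ∑ v, σ v = 0 ∧
    ((k : ℤ) + 8) * (Fintype.card V : ℤ) ≤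
      3 * ((k : ℤ) + 1) * F (fun x y => (ad G x y : ℤ)) univ σ) ∧
  (Odd (Fintype.card V) → 3 * k + 9 ≤ Fintype.card V → ∃ σ : V → ℤ, Sg σ ∧ ∑ v, σ v = 1 ∧
    6 * (k : ℤ) * ((k : ℤ) + 1) + ((k : ℤ) + 8) * (Fintype.card V : ℤ) ≤
      3 * ((k : ℤ) + 1) * F (fun x y => (ad G x y : ℤ)) univ σ)

end Pool.Agent.L0h26.CK
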