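import Pool.Agent.L0h26.CK.Stm

/-!
# Even `k`, orders `3 k + 3`, `3 k + 5`, `3 k + 7`
-/

set_option autoImplicit false

namespace Pool.Agent.L0h26.CK

open Finset Pool.Agent.Helper91.CK

/-- **EV2** (`k` even, `n = card V` odd, `3 k + 3 ≤ n ≤ 3 k + 7`).  Copy `Helper91/CK/Lower.lean`
(theorem `lower`) with RP2 in place of `rpart`: for the blocks `B ∈ C` (`T` of them, `k + 1`
vertices each, `card (X B) = k / 2`, so `∑_B σ = - ε B`), the rest `R`, `r = card R =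
n - T (k + 1)`, `A = ∑ a`, the same computation gives `σ` with
`F ≥ T (k + 8/3) + r + 25 r / (6 (k + 1)) + A / 5` (i.e. `30 (k+1) F ≥ (30 k + 80) (k + 1) T +
(30 (k + 1) + 125) r + 6 (k + 1) A`).  `F` is even (`F = ∑_x (out-degree - in-degree)` and every
degree is the even number `k`; or `4 cut = k n + F`).  `T ≤ 3` as `4 (k + 1) > 3 k + 7`.
* `T = 3`, `r = 0`: take the three signs `ε` not all equal, so `∑ σ = ± 1`; with the three
numbers of edges `w` between the blocks (`wTb`), every `e B` is even and `≥ 2` so the sum `Σ` of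
the three `w` is `≥ 3`; `F = 3 k + 2 Σ - 2 ∑ w ε ε`, and with the equal pair of signs at the pair
of smallest `w`: `F = 3 k + 4 (Σ - w_min) ≥ 3 k + 8`, which is the claim.
* otherwise `F ≥ 3 k + 12`: `T = 3`, `r = 2, 4`: `A ≥ r (k - r + 1)`; `T = 2`: `r = k + 1 + 2 u`,
`F ≥ 3 k + 10.5`, `F` even; `T = 1`: `r = 2 k + 2 + 2 u`, `F ≥ 3 k + 13`; `T = 0`: clear.
Then BAL (`d = 1`, after a change of sign `∑ σ = 1 + 2 j`, `P = k ∑ σ`, `ρ = k n`, see EV):
`F' ≥ z - z² / (k (n + 1))` with `z = 3 k + 12`, so `F' > 3 k + 8.9` and `F'` is even, so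
`F' ≥ 3 k + 10`, which is more than `2 k + n (k + 8) / (3 (k + 1))`. -/
def S_EV2 : Prop := S_BAL → S_RP2 → ∀ (V : Type) [Fintype V] [DecidableEq V]
  (G : SimpleGraph V) [DecidableRel G.Adj] (k : ℕ), 1000 ≤ k → Even k →
  (∀ v, ∑ y, ad G v y = k) → G.CliqueFree (k + 1) → Odd (Fintype.card V) →
  3 * k + 3 ≤ Fintype.card V → Fintype.card V ≤ 3 * k + 7 →
  ∃ σ : V → ℤ, Sg σ ∧ ∑ v, σ v = 1 ∧
    6 * (k : ℤ) * ((k : ℤ) + 1) + ((k : ℤ) + 8) * (Fintype.card V : ℤ) ≤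
      3 * ((k : ℤ) + 1) * F (fun x y => (ad G x y : ℤ)) univ σ

end Pool.Agent.L0h26.CK
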